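import Mathlib
import Pool.Agent.AFIsing.Final

/-!
# Exponential decay of correlations in the triangular-lattice antiferromagnetic Ising model
-/

open MeasureTheory

namespace Pool.Agent.Results.MP_a5ec60_pr.ExponentialDecay

/-- The vertices `a + bω` of the triangular lattice, `a, b ∈ ℤ`, `ω = e^{iπ/3}`, coded by the
pairs `(a, b)`. -/
abbrev Vertex : Type := ℤ × ℤ

/-- The point `a + bω` of the complex plane coded by `(a, b)`. -/
noncomputable def pos (v : Vertex) : ℂ :=
  (v.1 : ℂ) + (v.2 : ℂ) * Complex.exp ((Real.pi / 3 : ℝ) * Complex.I)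

/-- The triangular lattice as a graph: two vertices are adjacent when their Euclidean distance
is `1`. -/
def Lattice : SimpleGraph Vertex where
  Adj u v := dist (pos u) (pos v) = 1
  symm := ⟨fun u v h => by rw [dist_comm]; exact h⟩
  loopless := ⟨fun u h => by simp at h⟩

/-- Spins are coded by Booleans: `false` is the spin `+1` and `true` is the spin `-1`. -/
def spin (b : Bool) : ℝ := if b then -1 else 1

/-- The number of edges `{u, v}` of the triangular lattice that meet `Λ` and have
`σ u = σ v`. -/
noncomputable def mono (Λ : Finset Vertex) (σ : Vertex → Bool) : ℕ :=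
  {e : Sym2 Vertex | e ∈ Lattice.edgeSet ∧ (∃ v ∈ Λ, v ∈ e) ∧ ∀ u ∈ e, ∀ v ∈ e, σ u = σ v}.ncard

/-- The configuration that equals `τ` on `Λ` and `η` off `Λ`. -/
def complete (Λ : Finset Vertex) (τ : Λ → Bool) (η : Vertex → Bool) : Vertex → Bool :=
  fun v => if h : v ∈ Λ then τ ⟨v, h⟩ else η v

/-- The probability of `τ` under the finite-volume antiferromagnetic Ising measure on `Λ` with
boundary configuration `η` at inverse temperature `β`: it is proportional to
`exp (-β · #{edges that meet Λ and carry equal spins})`. -/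
noncomputable def finiteVolume (β : ℝ) (Λ : Finset Vertex) (η : Vertex → Bool)
    (τ : Λ → Bool) : ℝ :=
  Real.exp (-β * mono Λ (complete Λ τ η)) /
    ∑ τ' : Λ → Bool, Real.exp (-β * mono Λ (complete Λ τ' η))

/-- The σ-algebra generated by the spins off `Λ`. -/
@[reducible] def offSigma (Λ : Finset Vertex) : MeasurableSpace (Vertex → Bool) :=
  ⨆ v ∈ {v : Vertex | v ∉ Λ}, MeasurableSpace.comap (fun σ : Vertex → Bool => σ v) ⊤

/-- Gibbs measures at inverse temperature `β`: probability measures `μ` on the configurations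
(with the product σ-algebra) such that for every finite `Λ` the conditional law of `σ` on `Λ`
given the spins off `Λ` is `μ`-almost surely the finite-volume measure with boundary
configuration `σ`. -/
structure IsGibbs (β : ℝ) (μ : Measure (Vertex → Bool)) : Prop where
  isProbabilityMeasure : IsProbabilityMeasure μ
  dlr : ∀ (Λ : Finset Vertex) (τ : Λ → Bool),
    μ[Set.indicator {σ : Vertex → Bool | ∀ v : Λ, σ v = τ v} (fun _ => (1 : ℝ)) | offSigma Λ]
      =ᵐ[μ] fun σ => finiteVolume β Λ σ τ

/-- At every positive temperature the truncated two-point function of every Gibbs measure of the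
antiferromagnetic Ising model on the triangular lattice decays exponentially. -/
theorem result : ∀ β : ℝ, 0 < β → ∃ C c : ℝ, 0 < C ∧ 0 < c ∧
    ∀ μ : Measure (Vertex → Bool), IsGibbs β μ → ∀ x y : Vertex,
      |(∫ σ, spin (σ x) * spin (σ y) ∂μ) - (∫ σ, spin (σ x) ∂μ) * (∫ σ, spin (σ y) ∂μ)|
        ≤ C * Real.exp (-c * dist (pos x) (pos y)) := by
  intro β hβ
  obtain ⟨C₀, c₀, hC₀, hc₀, H⟩ := AFIsing.fv_decay β hβ
  obtain ⟨C, c, hC, hc, h⟩ := AFIsing.gibbs_of_fv β C₀ c₀ hC₀ hc₀ H
  refine ⟨C, c, hC, hc, ?_⟩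
  intro μ hμ x y
  exact h μ ⟨hμ.isProbabilityMeasure, hμ.dlr⟩ x y

end Pool.Agent.Results.MP_a5ec60_pr.ExponentialDecay
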